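import Pool.Agent.H.MP_d57ee4_lc.A

set_option autoImplicit false

namespace Pool.Agent.Results.MP_d57ee4_lc.Yes

open Pool.Agent.H.MP_d57ee4_lc

/-- Some bounded finite-one degree is a dense linear order of at least two 1-degrees. -/
theorem result : ∃ A : ℕ → Prop, (∀ B C, InDeg A B → InDeg A C → B ≤₁ C ∨ C ≤₁ B) ∧
    (∀ B C, InDeg A B → InDeg A C → B ≤₁ C → ¬ C ≤₁ B →
      ∃ E, InDeg A E ∧ B ≤₁ E ∧ ¬ E ≤₁ B ∧ E ≤₁ C ∧ ¬ C ≤₁ E) ∧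
    ∃ B C, InDeg A B ∧ InDeg A C ∧ ¬ B ≤₁ C :=
  final

end Pool.Agent.Results.MP_d57ee4_lc.Yes
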